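import Mathlib

/-!
# MP_dceaed_al, Q1: which quaternion matrices have a bounded `φ`-numerical range
-/

namespace Pool.Agent.Results.MP_dceaed_al.BoundedPhiRange

/-- The real quaternions. -/
abbrev Hq := Quaternion ℝ

@[local simp] theorem re_one' : QuaternionAlgebra.re (1 : Hq) = 1 := rfl
@[local simp] theorem re_zero' : QuaternionAlgebra.re (0 : Hq) = 0 := rfl
@[local simp] theorem imI_one' : QuaternionAlgebra.imI (1 : Hq) = 0 := rfl
@[local simp] theorem imJ_one' : QuaternionAlgebra.imJ (1 : Hq) = 0 := rfl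
@[local simp] theorem imK_one' : QuaternionAlgebra.imK (1 : Hq) = 0 := rfl

theorem coe_eq_smul (r : ℝ) : (r : Hq) = r • (1 : Hq) := by ext <;> simp

/-- `φ` is an involution of `Hq` (real-linear, anti-multiplicative, of order two) and it is
nonstandard, i.e. different from quaternion conjugation. -/
structure IsNonstdInvolution (φ : Hq →ₗ[ℝ] Hq) : Prop where
  anti : ∀ x y, φ (x * y) = φ y * φ x
  invol : ∀ x, φ (φ x) = x
  nonstd : ∃ x, φ x ≠ star x

/-- `x_φ A x = ∑_{l,m} φ(x_l) A_{lm} x_m`. -/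
noncomputable def form (φ : Hq →ₗ[ℝ] Hq) {n : ℕ} (A : Matrix (Fin n) (Fin n) Hq) (x : Fin n → Hq) : Hq :=
  ∑ l, ∑ m, φ (x l) * A l m * x m

/-- `S_n^(α) = {x : x_φ x = α}`. -/
def sphere (φ : Hq →ₗ[ℝ] Hq) (n : ℕ) (α : Hq) : Set (Fin n → Hq) :=
  {x | ∑ l, φ (x l) * x l = α}

/-- The `φ`-numerical range `W_φ^(α)(A)`. -/
def numRange (φ : Hq →ₗ[ℝ] Hq) {n : ℕ} (α : Hq) (A : Matrix (Fin n) (Fin n) Hq) : Set Hq :=
  (form φ A) '' (sphere φ n α)

/-! ### Structure of nonstandard involutions -/

theorem map_one' {φ : Hq →ₗ[ℝ] Hq} (h : IsNonstdInvolution φ) : φ 1 = 1 := by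
  have h1 : φ (φ 1 * 1) = φ 1 * φ (φ 1) := h.anti _ _
  rw [mul_one, h.invol, mul_one] at h1
  exact h1.symm

theorem central_real (z : Hq) (hz : ∀ x : Hq, z * x = x * z) : z = (z.re : Hq) := by
  have h1 := hz ⟨0, 1, 0, 0⟩
  have h2 := hz ⟨0, 0, 1, 0⟩
  have e1 := congrArg (fun q : Hq => q.imJ) h1
  have e2 := congrArg (fun q : Hq => q.imK) h1
  have e3 := congrArg (fun q : Hq => q.imK) h2
  simp at e1 e2 e3
  ext <;> simp <;> linarith

theorem exists_q1 {φ : Hq →ₗ[ℝ] Hq} (h : IsNonstdInvolution φ) :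
    ∃ q : Hq, q * q = -1 ∧ star q = -q ∧ ∀ x, φ x = -(q * star x * q) := by
  -- an intertwiner
  have hI : ∃ q : Hq, q ≠ 0 ∧ ∀ x : Hq, φ (star x) * q = q * x := by
    let i : Hq := ⟨0, 1, 0, 0⟩
    let j : Hq := ⟨0, 0, 1, 0⟩
    let k : Hq := ⟨0, 0, 0, 1⟩
    have hii : i * i = -1 := by ext <;> simp [i]
    have hjj : j * j = -1 := by ext <;> simp [j]
    have hkk : k * k = -1 := by ext <;> simp [k]
    have hij : i * j = k := by ext <;> simp [i, j, k]
    have hji : j * i = -k := by ext <;> simp [i, j, k]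
    have hjk : j * k = i := by ext <;> simp [i, j, k]
    have hkj : k * j = -i := by ext <;> simp [i, j, k]
    have hki : k * i = j := by ext <;> simp [i, j, k]
    have hik : i * k = -j := by ext <;> simp [i, j, k]
    set I := - φ i with hI
    set J := - φ j with hJ
    set K := - φ k with hK
    have h1 := map_one' h
    have hII : I * I = -1 := by
      rw [hI, neg_mul_neg, ← h.anti, hii, map_neg, h1]
    have hJJ : J * J = -1 := by
      rw [hJ, neg_mul_neg, ← h.anti, hjj, map_neg, h1]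
    have hKK : K * K = -1 := by
      rw [hK, neg_mul_neg, ← h.anti, hkk, map_neg, h1]
    have hIJ : I * J = K := by
      rw [hI, hJ, neg_mul_neg, ← h.anti, hji, map_neg]
    have hJI : J * I = -K := by
      rw [hI, hJ, neg_mul_neg, ← h.anti, hij, hK, neg_neg]
    have hJK : J * K = I := by
      rw [hJ, hK, neg_mul_neg, ← h.anti, hkj, map_neg]
    have hKJ : K * J = -I := by
      rw [hJ, hK, neg_mul_neg, ← h.anti, hjk, hI, neg_neg]
    have hKI : K * I = J := by
      rw [hI, hK, neg_mul_neg, ← h.anti, hik, map_neg]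
    have hIK : I * K = -J := by
      rw [hI, hK, neg_mul_neg, ← h.anti, hki, hJ, neg_neg]
    let q : Hq → Hq := fun c => c - I * c * i - J * c * j - K * c * k
    have hqi : ∀ c, I * q c = q c * i := by
      intro c
      have e1 : I * q c = I * c - (I * I) * c * i - (I * J) * c * j - (I * K) * c * k := by
        simp only [q]; noncomm_ring
      have e2 : q c * i = c * i - I * c * (i * i) - J * c * (j * i) - K * c * (k * i) := by
        simp only [q]; noncomm_ring
      rw [e1, e2, hII, hIJ, hIK, hii, hji, hki]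
      noncomm_ring
    have hqj : ∀ c, J * q c = q c * j := by
      intro c
      have e1 : J * q c = J * c - (J * I) * c * i - (J * J) * c * j - (J * K) * c * k := by
        simp only [q]; noncomm_ring
      have e2 : q c * j = c * j - I * c * (i * j) - J * c * (j * j) - K * c * (k * j) := by
        simp only [q]; noncomm_ring
      rw [e1, e2, hJI, hJJ, hJK, hij, hjj, hkj]
      noncomm_ring
    have hqk : ∀ c, K * q c = q c * k := by
      intro c
      rw [← hIJ, mul_assoc, hqj, ← mul_assoc, hqi, mul_assoc, hij]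
    have hne : ∃ c, q c ≠ 0 := by
      by_contra hcon
      push Not at hcon
      have e : q 1 - (q i * i + q j * j + q k * k) = (4 : ℝ) • (1 : Hq) := by
        have e1 : q 1 = 1 - I * i - J * j - K * k := by simp only [q]; noncomm_ring
        have e2 : q i * i = i * i - I * (i * i) * i - J * i * (j * i) - K * i * (k * i) := by
          simp only [q]; noncomm_ring
        have e3 : q j * j = j * j - I * j * (i * j) - J * (j * j) * j - K * j * (k * j) := by
          simp only [q]; noncomm_ring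
        have e4 : q k * k = k * k - I * k * (i * k) - J * k * (j * k) - K * (k * k) * k := by
          simp only [q]; noncomm_ring
        rw [e1, e2, e3, e4, hii, hjj, hkk, hij, hji, hjk, hkj, hki, hik]
        have f1 : J * i * -k = J * j := by rw [mul_assoc, mul_neg, hik, neg_neg]
        have f2 : K * i * j = K * k := by rw [mul_assoc, hij]
        have f3 : I * j * k = I * i := by rw [mul_assoc, hjk]
        have f4 : K * j * -i = K * k := by rw [mul_assoc, mul_neg, hji, neg_neg]
        have f5 : I * k * -j = I * i := by rw [mul_assoc, mul_neg, hkj, neg_neg]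
        have f6 : J * k * i = J * j := by rw [mul_assoc, hki]
        rw [f1, f2, f3, f4, f5, f6]
        have : (4 : ℝ) • (1 : Hq) = 1 + 1 + 1 + 1 := by
          rw [show (4 : ℝ) = 1 + 1 + 1 + 1 by norm_num]
          simp only [add_smul, one_smul]
        rw [this]
        noncomm_ring
      rw [hcon, hcon, hcon, hcon] at e
      have e' := congrArg (fun z : Hq => z.re) e
      simp at e'
    obtain ⟨c, hc⟩ := hne
    refine ⟨q c, hc, ?_⟩
    intro x
    have hx : x = (x.re) • (1 : Hq) + x.imI • i + x.imJ • j + x.imK • k := by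
      ext <;> simp [i, j, k]
    have hsx : star x = (x.re) • (1 : Hq) - x.imI • i - x.imJ • j - x.imK • k := by
      ext <;> simp [i, j, k]
    rw [hsx]
    conv_rhs => rw [hx]
    simp only [map_sub, map_smul, h1]
    have g1 : φ i = - I := by rw [hI, neg_neg]
    have g2 : φ j = - J := by rw [hJ, neg_neg]
    have g3 : φ k = - K := by rw [hK, neg_neg]
    rw [g1, g2, g3]
    simp only [sub_mul, mul_add, smul_mul_assoc, mul_smul_comm, neg_mul, one_mul, mul_one, hqi,
      hqj, hqk, smul_neg]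
    abel
  obtain ⟨q, hq, hqx⟩ := hI
  have hφ : ∀ x, φ x = q * star x * q⁻¹ := by
    intro x
    have := hqx (star x)
    rw [star_star] at this
    rw [← this, mul_assoc, mul_inv_cancel₀ hq, mul_one]
  have hcen : ∀ x : Hq, (q * (star q)⁻¹) * x = x * (q * (star q)⁻¹) := by
    intro x
    have h2 := h.invol x
    rw [hφ, hφ] at h2
    rw [star_mul, star_mul, star_star, star_inv₀] at h2
    have h3 : q * ((star q)⁻¹ * (x * star q)) * q⁻¹ = x := h2
    have hsq : star q ≠ 0 := star_ne_zero.2 hq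
    have h4 : q * ((star q)⁻¹ * (x * star q)) * q⁻¹ * (q * (star q)⁻¹) = (q * (star q)⁻¹) * x := by
      simp only [mul_assoc]
      rw [inv_mul_cancel_left₀ hq, mul_inv_cancel₀ hsq, mul_one]
    rw [← h4, h3]
  have hsq : star q ≠ 0 := star_ne_zero.2 hq
  have hr := central_real _ hcen
  set r := (q * (star q)⁻¹).re with hrdef
  have hqr : q = (r : Hq) * star q := by
    rw [← hr, mul_assoc, inv_mul_cancel₀ hsq, mul_one]
  have hr2 : r ^ 2 = 1 := by
    have h5 := congrArg (fun z : Hq => Quaternion.normSq z) hqr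
    simp only [map_mul, Quaternion.normSq_star, Quaternion.normSq_coe] at h5
    have h6 : Quaternion.normSq q ≠ 0 := (Quaternion.normSq_ne_zero).2 hq
    field_simp at h5
    linarith
  have hr3 : r = 1 ∨ r = -1 := by
    have : (r - 1) * (r + 1) = 0 := by linear_combination hr2
    rcases mul_eq_zero.1 this with h6 | h6
    · left; linarith
    · right; linarith
  rcases hr3 with h6 | h6
  · exfalso
    obtain ⟨x, hx⟩ := h.nonstd
    apply hx
    rw [h6] at hqr
    have h7 : q = (q.re : Hq) := Quaternion.star_eq_self.1 (by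
      rw [Quaternion.coe_one, one_mul] at hqr; exact hqr.symm)
    rw [hφ x, h7]
    have h8 : (q.re : Hq) ≠ 0 := by rwa [← h7]
    rw [(Quaternion.coe_commutes _ _ : (q.re : Hq) * star x = star x * (q.re : Hq)), mul_assoc,
      mul_inv_cancel₀ h8, mul_one]
  · rw [h6] at hqr
    have h7 : star q = -q := by
      rw [eq_neg_iff_add_eq_zero]
      nth_rw 2 [hqr]
      simp
    have hn : 0 < ‖q‖ := norm_pos_iff.2 hq
    refine ⟨(‖q‖⁻¹ : ℝ) • q, ?_, ?_, ?_⟩
    · have h8 : q * q = -((‖q‖ ^ 2 : ℝ) : Hq) := by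
        have h9 := Quaternion.self_mul_star q
        rw [h7, mul_neg, Quaternion.normSq_eq_norm_mul_self] at h9
        rw [← neg_eq_iff_eq_neg, h9, sq]
      rw [smul_mul_smul_comm, h8, coe_eq_smul, smul_neg, smul_smul]
      have : ‖q‖⁻¹ * ‖q‖⁻¹ * ‖q‖ ^ 2 = 1 := by field_simp
      rw [this, one_smul]
    · simp [h7]
    · intro x
      rw [hφ x]
      have h8 : q⁻¹ = -(‖q‖⁻¹ ^ 2 : ℝ) • q := by
        rw [Quaternion.inv_def, h7, Quaternion.normSq_eq_norm_mul_self]
        simp [sq]
      rw [h8]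
      simp only [smul_mul_assoc, mul_smul_comm, smul_smul, neg_smul, mul_neg, sq]

theorem exists_q2 {q1 : Hq} (h11 : q1 * q1 = -1) (hs : star q1 = -q1) :
    ∃ q2 : Hq, q2 * q2 = -1 ∧ star q2 = -q2 ∧ q1 * q2 = -(q2 * q1) := by
  have hx : ∃ x : Hq, q1 * x ≠ x * q1 := by
    by_contra hcon
    push Not at hcon
    have h1 := central_real q1 hcon
    have h2 : star q1 = q1 := Quaternion.star_eq_self.2 h1
    rw [hs] at h2
    have h3 : q1 = 0 := by
      have : (2 : ℝ) • q1 = 0 := by
        rw [two_smul]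
        nth_rw 1 [← h2]
        simp
      simpa using this
    rw [h3] at h11
    have h4 := congrArg (fun z : Hq => z.re) h11
    simp at h4
  obtain ⟨x, hx⟩ := hx
  set y := x + q1 * x * q1 with hy
  have hy0 : y ≠ 0 := by
    intro h0
    apply hx
    have h1 : y * q1 = x * q1 - q1 * x := by
      rw [hy, add_mul, mul_assoc (q1 * x), h11]
      noncomm_ring
    rw [h0, zero_mul] at h1
    exact (sub_eq_zero.1 h1.symm).symm
  have hanti : y * q1 = -(q1 * y) := by
    have h1 : y * q1 = x * q1 + q1 * x * (q1 * q1) := by rw [hy]; noncomm_ring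
    have h2 : q1 * y = q1 * x + (q1 * q1) * x * q1 := by rw [hy]; noncomm_ring
    rw [h1, h2, h11]
    noncomm_ring
  have hanti' : star y * q1 = -(q1 * star y) := by
    have h1 := congrArg star hanti
    rw [star_mul, star_neg, star_mul, hs] at h1
    have h2 : -(q1 * star y) = star y * q1 := by
      simpa using h1
    exact h2.symm
  have hre : y + star y = 0 := by
    have h1 := Quaternion.self_add_star' (a := y)
    have h2 : (y + star y) * q1 = -(q1 * (y + star y)) := by
      rw [add_mul, hanti, hanti', mul_add q1 y (star y), neg_add]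
    rw [h1, Quaternion.coe_commutes, ← h1] at h2
    have h3 : (2 : ℝ) • (q1 * (y + star y)) = 0 := by
      rw [two_smul]
      nth_rw 1 [h2]
      simp
    have h3' : q1 * (y + star y) = 0 := by
      rcases smul_eq_zero.1 h3 with h | h
      · norm_num at h
      · exact h
    have h4 : (q1 * q1) * (y + star y) = 0 := by rw [mul_assoc, h3', mul_zero]
    rw [h11, neg_one_mul, neg_eq_zero] at h4
    exact h4
  have hsy : star y = -y := by
    rw [eq_neg_iff_add_eq_zero, add_comm]; exact hre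
  have hyy : y * y = -((‖y‖ ^ 2 : ℝ) : Hq) := by
    have h9 := Quaternion.self_mul_star y
    rw [hsy, mul_neg, Quaternion.normSq_eq_norm_mul_self] at h9
    rw [← neg_eq_iff_eq_neg, h9, sq]
  have hn : 0 < ‖y‖ := norm_pos_iff.2 hy0
  refine ⟨(‖y‖⁻¹ : ℝ) • y, ?_, ?_, ?_⟩
  · rw [smul_mul_smul_comm, hyy, coe_eq_smul, smul_neg, smul_smul]
    have : ‖y‖⁻¹ * ‖y‖⁻¹ * ‖y‖ ^ 2 = 1 := by field_simp
    rw [this, one_smul]
  · simp [hsy]
  · rw [mul_smul_comm, smul_mul_assoc, hanti, smul_neg, neg_neg]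

/-- The data attached to a nonstandard involution. -/
structure Data (φ : Hq →ₗ[ℝ] Hq) (q1 q2 : Hq) : Prop where
  one : φ 1 = 1
  anti : ∀ x y, φ (x * y) = φ y * φ x
  h11 : q1 * q1 = -1
  h22 : q2 * q2 = -1
  h12 : q1 * q2 = -(q2 * q1)
  s1 : star q1 = -q1
  s2 : star q2 = -q2
  eq : ∀ x, φ x = -(q1 * star x * q1)

theorem exists_data {φ : Hq →ₗ[ℝ] Hq} (h : IsNonstdInvolution φ) : ∃ q1 q2, Data φ q1 q2 := by
  obtain ⟨q1, h11, s1, he⟩ := exists_q1 h
  obtain ⟨q2, h22, s2, h12⟩ := exists_q2 h11 s1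
  exact ⟨q1, q2, map_one' h, h.anti, h11, h22, h12, s1, s2, he⟩

variable {φ : Hq →ₗ[ℝ] Hq} {q1 q2 : Hq}

theorem Data.phi_q1 (D : Data φ q1 q2) : φ q1 = -q1 := by
  rw [D.eq, D.s1, mul_neg, D.h11]
  noncomm_ring

theorem Data.phi_q2 (D : Data φ q1 q2) : φ q2 = q2 := by
  have : q1 * q2 * q1 = q2 := by
    rw [D.h12, neg_mul, mul_assoc, D.h11]; noncomm_ring
  rw [D.eq, D.s2, mul_neg, neg_mul, neg_neg, this]

theorem Data.h33 (D : Data φ q1 q2) : (q1 * q2) * (q1 * q2) = -1 := by
  have : (q1 * q2) * (q1 * q2) = -((q1 * q2) * (q2 * q1)) := by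
    nth_rw 2 [D.h12]
    rw [mul_neg]
  rw [this]
  have : (q1 * q2) * (q2 * q1) = q1 * (q2 * q2) * q1 := by noncomm_ring
  rw [this, D.h22, mul_neg, mul_one, neg_mul, D.h11, neg_neg]

theorem Data.phi_q3 (D : Data φ q1 q2) : φ (q1 * q2) = q1 * q2 := by
  rw [D.anti, D.phi_q1, D.phi_q2, D.h12, mul_neg]

theorem Data.phi_ne (D : Data φ q1 q2) {x : Hq} : star x * q1 * x = q1 * (φ x * x) := by
  rw [D.eq]
  have : q1 * (-(q1 * star x * q1) * x) = -((q1 * q1) * star x * q1 * x) := by noncomm_ring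
  rw [this, D.h11]
  noncomm_ring

theorem norm_q1 (h11 : q1 * q1 = -1) : ‖q1‖ = 1 := by
  have h := congrArg norm h11
  rw [norm_mul, norm_neg, norm_one] at h
  nlinarith [norm_nonneg q1]

theorem Data.norm_phi (D : Data φ q1 q2) (x : Hq) : ‖φ x‖ = ‖x‖ := by
  rw [D.eq, norm_neg, norm_mul, norm_mul, norm_q1 D.h11, Quaternion.norm_star]
  simp

theorem mul_self_eq (a : Hq) : a * a = (2 * a.re) • a - (‖a‖ ^ 2) • (1 : Hq) := by
  have h1 := Quaternion.self_mul_star a
  rw [Quaternion.star_eq_two_re_sub, mul_sub, Quaternion.normSq_eq_norm_mul_self, sub_eq_iff_eq_add,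
    ← Quaternion.coe_commutes, Quaternion.coe_mul_eq_smul, coe_eq_smul] at h1
  rw [h1, sq]
  abel

theorem Data.exists_sqrt (D : Data φ q1 q2) {α : Hq} (hα : φ α = α) (h0 : α ≠ 0) :
    ∃ l : Hq, φ l = l ∧ l * l = α := by
  have hn : 0 < ‖α‖ := norm_pos_iff.2 h0
  by_cases hc : α + ‖α‖ • (1 : Hq) = 0
  · refine ⟨(Real.sqrt ‖α‖) • q2, by rw [map_smul, D.phi_q2], ?_⟩
    rw [smul_mul_smul_comm, D.h22, Real.mul_self_sqrt hn.le, smul_neg]
    exact (eq_neg_of_add_eq_zero_left hc).symm
  · have h1 : (α + ‖α‖ • (1 : Hq)) * (α + ‖α‖ • (1 : Hq)) = (2 * (‖α‖ + α.re)) • α := by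
      have : (α + ‖α‖ • (1 : Hq)) * (α + ‖α‖ • (1 : Hq))
          = α * α + (2 * ‖α‖) • α + (‖α‖ ^ 2) • (1 : Hq) := by
        rw [mul_add, add_mul, add_mul]
        simp only [mul_smul_comm, smul_mul_assoc, mul_one, one_mul, smul_smul]
        module
      rw [this, mul_self_eq]
      module
    have h2 : 0 < ‖α‖ + α.re := by
      have h3 : ‖α + ‖α‖ • (1 : Hq)‖ * ‖α + ‖α‖ • (1 : Hq)‖ = |2 * (‖α‖ + α.re)| * ‖α‖ := by
        rw [← norm_mul, h1, norm_smul, Real.norm_eq_abs]
      have h4 : 0 < ‖α + ‖α‖ • (1 : Hq)‖ := norm_pos_iff.2 hc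
      have h5 : 0 ≤ ‖α‖ + α.re := by
        have h6 : α.re ^ 2 ≤ ‖α‖ ^ 2 := by
          rw [sq ‖α‖, ← Quaternion.normSq_eq_norm_mul_self, Quaternion.normSq_def']
          nlinarith [sq_nonneg α.imI, sq_nonneg α.imJ, sq_nonneg α.imK]
        have := abs_le_of_sq_le_sq' h6 hn.le
        linarith [this.1]
      rcases h5.lt_or_eq with h6 | h6
      · exact h6
      · rw [← h6] at h3
        simp at h3
        exact absurd h3 (ne_of_gt h4 ∘ (fun h => norm_eq_zero.2 h))
    refine ⟨(Real.sqrt (2 * (‖α‖ + α.re)))⁻¹ • (α + ‖α‖ • (1 : Hq)), ?_, ?_⟩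
    · rw [map_smul, map_add, map_smul, hα, D.one]
    · rw [smul_mul_smul_comm, h1, smul_smul, ← mul_inv, Real.mul_self_sqrt (by positivity),
        inv_mul_cancel₀ (by positivity), one_smul]

/-! ### Forms -/

variable {n : ℕ}

/-- the real-bilinear form `∑ φ(x_l) A_{lm} y_m` -/
noncomputable def B (φ : Hq →ₗ[ℝ] Hq) (A : Matrix (Fin n) (Fin n) Hq) (x y : Fin n → Hq) : Hq :=
  ∑ l, ∑ m, φ (x l) * A l m * y m

theorem form_eq (A : Matrix (Fin n) (Fin n) Hq) (x : Fin n → Hq) : form φ A x = B φ A x x := rfl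

theorem B_add_left (A : Matrix (Fin n) (Fin n) Hq) (x x' y : Fin n → Hq) :
    B φ A (x + x') y = B φ A x y + B φ A x' y := by
  simp only [B, Pi.add_apply, map_add, add_mul, Finset.sum_add_distrib]

theorem B_add_right (A : Matrix (Fin n) (Fin n) Hq) (x y y' : Fin n → Hq) :
    B φ A x (y + y') = B φ A x y + B φ A x y' := by
  simp only [B, Pi.add_apply, mul_add, Finset.sum_add_distrib]

theorem B_single (A : Matrix (Fin n) (Fin n) Hq) (l m : Fin n) (u v : Hq) :
    B φ A (Pi.single l u) (Pi.single m v) = φ u * A l m * v := by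
  classical
  rw [B, Finset.sum_eq_single l, Finset.sum_eq_single m]
  · simp
  · intro k _ hk
    simp [hk]
  · simp
  · intro k _ hk
    simp [hk]
  · simp

theorem sum_eq_form (x : Fin n → Hq) : ∑ l, φ (x l) * x l = form φ 1 x := by
  classical
  unfold form
  apply Finset.sum_congr rfl
  intro l _
  rw [Finset.sum_eq_single l]
  · simp
  · intro m _ hm
    simp [Matrix.one_apply_ne hm.symm]
  · simp

theorem mem_sphere (α : Hq) (x : Fin n → Hq) : x ∈ sphere φ n α ↔ form φ 1 x = α := by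
  rw [← sum_eq_form]; rfl

theorem form_smul_right (D : Data φ q1 q2) (A : Matrix (Fin n) (Fin n) Hq) (x : Fin n → Hq)
    (l : Hq) : form φ A (fun k => x k * l) = φ l * form φ A x * l := by
  unfold form
  simp only [D.anti, Finset.mul_sum, Finset.sum_mul, mul_assoc]

theorem form2 (A : Matrix (Fin n) (Fin n) Hq) (l m : Fin n) (u v : Hq) :
    form φ A (Pi.single l u + Pi.single m v) = φ u * A l l * u + φ u * A l m * v +
      (φ v * A m l * u + φ v * A m m * v) := by
  simp only [form_eq, B_add_left, B_add_right, B_single]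
  abel

theorem form3 (A : Matrix (Fin n) (Fin n) Hq) (l m r : Fin n) (u v w : Hq) :
    form φ A (Pi.single l u + Pi.single m v + Pi.single r w) =
      (φ u * A l l * u + φ u * A l m * v + φ v * A m l * u + φ v * A m m * v) +
      (φ u * A l r * w + φ w * A r l * u + φ v * A m r * w + φ w * A r m * v) +
      φ w * A r r * w := by
  simp only [form_eq, B_add_left, B_add_right, B_single]
  abel

/-- extracting coefficients from boundedness -/
theorem coef {X Y : Hq} {Z : ℝ → Hq} {C C' : ℝ} (hZ : ∀ t : ℝ, 1 ≤ t → ‖Z t‖ ≤ C')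
    (h : ∀ t : ℝ, 1 ≤ t → ‖(t ^ 2) • X + t • Y + Z t‖ ≤ C) : X = 0 ∧ Y = 0 := by
  have h1 : ∀ t : ℝ, 1 ≤ t → ‖(t ^ 2) • X + t • Y‖ ≤ C + C' := by
    intro t ht
    have : (t ^ 2) • X + t • Y = ((t ^ 2) • X + t • Y + Z t) - Z t := by abel
    rw [this]
    exact (norm_sub_le _ _).trans (add_le_add (h t ht) (hZ t ht))
  have hX : X = 0 := by
    by_contra hX
    have hn : 0 < ‖X‖ := norm_pos_iff.2 hX
    have h2 : ∀ t : ℝ, 1 ≤ t → t ^ 2 * ‖X‖ ≤ C + C' + t * ‖Y‖ := by
      intro t ht
      have h3 := h1 t ht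
      have h4 : ‖(t ^ 2) • X‖ ≤ ‖(t ^ 2) • X + t • Y‖ + ‖t • Y‖ := by
        have : (t ^ 2) • X = ((t ^ 2) • X + t • Y) - t • Y := by abel
        nth_rw 1 [this]
        exact norm_sub_le _ _
      rw [norm_smul, norm_smul, Real.norm_of_nonneg (by positivity : (0:ℝ) ≤ t ^ 2),
        Real.norm_of_nonneg (by linarith : (0:ℝ) ≤ t)] at h4
      linarith
    have hD : 0 ≤ C + C' := (norm_nonneg _).trans (h1 1 le_rfl)
    set t := (‖Y‖ + (C + C') + 1) / ‖X‖ + 1 with ht
    have ht1 : 1 ≤ t := by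
      rw [ht]
      have : 0 ≤ (‖Y‖ + (C + C') + 1) / ‖X‖ := by positivity
      linarith
    have h5 : t * ‖X‖ = ‖Y‖ + (C + C') + 1 + ‖X‖ := by
      rw [ht, add_mul, div_mul_cancel₀ _ hn.ne']
      ring
    have h6 := h2 t ht1
    have h7 : t ^ 2 * ‖X‖ = t * (‖Y‖ + (C + C') + 1 + ‖X‖) := by rw [← h5]; ring
    rw [h7] at h6
    nlinarith [norm_nonneg Y]
  refine ⟨hX, ?_⟩
  by_contra hY
  have hn : 0 < ‖Y‖ := norm_pos_iff.2 hY
  have hD : 0 ≤ C + C' := (norm_nonneg _).trans (h1 1 le_rfl)
  set t := (C + C' + 1) / ‖Y‖ + 1 with ht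
  have ht1 : 1 ≤ t := by
    rw [ht]
    have : 0 ≤ (C + C' + 1) / ‖Y‖ := by positivity
    linarith
  have h6 := h1 t ht1
  rw [hX, smul_zero, zero_add, norm_smul, Real.norm_of_nonneg (by linarith : (0:ℝ) ≤ t)] at h6
  have h5 : t * ‖Y‖ = C + C' + 1 + ‖Y‖ := by
    rw [ht, add_mul, div_mul_cancel₀ _ hn.ne']
    ring
  linarith

/-- the relation for a pair of coordinates -/
theorem pair (D : Data φ q1 q2) (A : Matrix (Fin n) (Fin n) Hq) {C : ℝ}
    (hC : ∀ y ∈ sphere φ n 1, ‖form φ A y‖ ≤ C) {l m : Fin n} (hlm : l ≠ m) {q : Hq}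
    (hq : φ q = q) (hqq : q * q = -1) :
    A l l + q * A m m * q = 0 ∧ A l m * q + q * A m l = 0 := by
  have key : ∀ q : Hq, φ q = q → q * q = -1 →
      A l l - (A l m * q + q * A m l) + q * A m m * q = 0 := by
    intro q hq hqq
    set a := A l l
    set b := A l m
    set c := A m l
    set d := A m m
    refine (coef (X := a - (b * q + q * c) + q * d * q) (Y := 0)
      (Z := fun t => (1/2 + 1/(16*t^2)) • a + (1/(16*t^2)) • (b * q + q * c) +
        (-1/2 + 1/(16*t^2)) • (q * d * q)) (C := C)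
      (C' := ‖a‖ + ‖b * q + q * c‖ + ‖q * d * q‖) ?_ ?_).1
    · intro t ht
      have h0 : (0:ℝ) < 1/(16*t^2) := by positivity
      have h1 : 1/(16*t^2) ≤ 1/16 := by
        apply one_div_le_one_div_of_le (by norm_num)
        nlinarith
      refine (norm_add₃_le).trans ?_
      rw [norm_smul, norm_smul, norm_smul]
      have e1 : ‖(1/2 + 1/(16*t^2) : ℝ)‖ ≤ 1 := by
        rw [Real.norm_eq_abs, abs_le]; constructor <;> linarith
      have e2 : ‖(1/(16*t^2) : ℝ)‖ ≤ 1 := by
        rw [Real.norm_eq_abs, abs_le]; constructor <;> linarith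
      have e3 : ‖(-1/2 + 1/(16*t^2) : ℝ)‖ ≤ 1 := by
        rw [Real.norm_eq_abs, abs_le]; constructor <;> linarith
      have f1 := mul_le_mul_of_nonneg_right e1 (norm_nonneg a)
      have f2 := mul_le_mul_of_nonneg_right e2 (norm_nonneg (b * q + q * c))
      have f3 := mul_le_mul_of_nonneg_right e3 (norm_nonneg (q * d * q))
      rw [one_mul] at f1 f2 f3
      exact add_le_add (add_le_add f1 f2) f3
    · intro t ht
      have ht0 : t ≠ 0 := by positivity
      set ch := t + 1/(4*t) with hch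
      set sh := t - 1/(4*t) with hsh
      have hmem : (Pi.single l (ch • (1:Hq)) + Pi.single m ((-sh) • q) : Fin n → Hq) ∈
          sphere φ n 1 := by
        rw [mem_sphere, form2]
        simp only [Matrix.one_apply_eq, Matrix.one_apply_ne hlm, Matrix.one_apply_ne hlm.symm,
          map_smul, D.one, hq, mul_one, mul_zero, zero_mul, add_zero, zero_add]
        rw [smul_mul_smul_comm, smul_mul_smul_comm, hqq, one_mul]
        have : ch * ch - sh * sh = 1 := by
          rw [hch, hsh]; field_simp; ring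
        have e : (ch * ch) • (1 : Hq) + (-sh * -sh) • (-1 : Hq) = (ch * ch - sh * sh) • (1 : Hq) := by
          module
        rw [e, this, one_smul]
      have h1 := hC _ hmem
      rw [form2] at h1
      simp only [map_smul, D.one, hq, smul_mul_assoc, mul_smul_comm, one_mul, mul_one, smul_smul] at h1
      convert h1 using 2
      have g1 : ch * ch = t^2 + 1/2 + 1/(16*t^2) := by rw [hch]; field_simp; ring
      have g2 : ch * sh = t^2 - 1/(16*t^2) := by rw [hch, hsh]; field_simp; ring
      have g3 : sh * sh = t^2 - 1/2 + 1/(16*t^2) := by rw [hsh]; field_simp; ring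
      have e : (ch * ch) • a + (-sh * ch) • (b * q) + ((ch * -sh) • (q * c) + (-sh * -sh) • (q * d * q))
        = (ch * ch) • a - (ch * sh) • (b * q + q * c) + (sh * sh) • (q * d * q) := by module
      change _ = (ch * ch) • a + (-sh * ch) • (b * q) + ((ch * -sh) • (q * c)
        + (-sh * -sh) • (q * d * q))
      rw [e, g1, g2, g3]
      module
  have k1 := key q hq hqq
  have k2 := key (-q) (by rw [map_neg, hq]) (by rw [neg_mul_neg, hqq])
  have k2' : A l l + (A l m * q + q * A m l) + q * A m m * q = 0 := by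
    rw [← k2]; noncomm_ring
  constructor
  · have : (2 : ℝ) • (A l l + q * A m m * q) = 0 := by
      rw [two_smul]
      calc _ = (A l l - (A l m * q + q * A m l) + q * A m m * q) +
          (A l l + (A l m * q + q * A m l) + q * A m m * q) := by abel
        _ = 0 := by rw [k1, k2', add_zero]
    rcases smul_eq_zero.1 this with h | h
    · norm_num at h
    · exact h
  · have : (2 : ℝ) • (A l m * q + q * A m l) = 0 := by
      rw [two_smul]
      calc _ = (A l l + (A l m * q + q * A m l) + q * A m m * q) -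
          (A l l - (A l m * q + q * A m l) + q * A m m * q) := by abel
        _ = 0 := by rw [k1, k2', sub_zero]
    rcases smul_eq_zero.1 this with h | h
    · norm_num at h
    · exact h

/-- the relation for three distinct coordinates -/
theorem triple (D : Data φ q1 q2) (A : Matrix (Fin n) (Fin n) Hq) {C : ℝ}
    (hC : ∀ y ∈ sphere φ n 1, ‖form φ A y‖ ≤ C) {l m r : Fin n} (hlm : l ≠ m) (hlr : l ≠ r)
    (hmr : m ≠ r) {z : Hq} (hz : φ z * z = 1) : A l r * z + φ z * A r l = 0 := by
  have key : ∀ q : Hq, φ q = q → q * q = -1 →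
      A l r * z + φ z * A r l - (q * A m r * z + φ z * A r m * q) = 0 := by
    intro q hq hqq
    refine (coef (X := A l l - (A l m * q + q * A m l) + q * A m m * q)
      (Y := A l r * z + φ z * A r l - (q * A m r * z + φ z * A r m * q))
      (Z := fun _ => φ z * A r r * z) (C := C) (C' := ‖φ z * A r r * z‖) (fun _ _ => le_rfl) ?_).2
    intro t ht
    have hmem : (Pi.single l (t • (1:Hq)) + Pi.single m ((-t) • q) + Pi.single r z : Fin n → Hq) ∈
        sphere φ n 1 := by
      rw [mem_sphere, form3]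
      simp only [Matrix.one_apply_eq, Matrix.one_apply_ne hlm, Matrix.one_apply_ne hlm.symm,
        Matrix.one_apply_ne hlr, Matrix.one_apply_ne hlr.symm, Matrix.one_apply_ne hmr,
        Matrix.one_apply_ne hmr.symm,
        map_smul, D.one, hq, mul_one, mul_zero, zero_mul, add_zero, hz]
      rw [smul_mul_smul_comm, smul_mul_smul_comm, hqq, one_mul]
      module
    have h1 := hC _ hmem
    rw [form3] at h1
    simp only [map_smul, D.one, hq, smul_mul_assoc, mul_smul_comm, one_mul, mul_one, smul_smul] at h1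
    convert h1 using 2
    module
  have k1 := key q2 D.phi_q2 D.h22
  have k2 := key (-q2) (by rw [map_neg, D.phi_q2]) (by rw [neg_mul_neg, D.h22])
  have k2' : A l r * z + φ z * A r l + (q2 * A m r * z + φ z * A r m * q2) = 0 := by
    rw [← k2]; noncomm_ring
  have : (2 : ℝ) • (A l r * z + φ z * A r l) = 0 := by
    rw [two_smul]
    calc _ = (A l r * z + φ z * A r l - (q2 * A m r * z + φ z * A r m * q2)) +
        (A l r * z + φ z * A r l + (q2 * A m r * z + φ z * A r m * q2)) := by abel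
      _ = 0 := by rw [k1, k2', add_zero]
  rcases smul_eq_zero.1 this with h | h
  · norm_num at h
  · exact h

/-! ### Algebra of elements commuting with `q1` -/

theorem comm_q1 (D : Data φ q1 q2) {a : Hq} (ha : a * q1 = q1 * a) :
    ∃ x y : ℝ, a = x • (1 : Hq) + y • q1 := by
  have hs : star a * q1 = q1 * star a := by
    have h := congrArg star ha
    rw [star_mul, star_mul, D.s1, neg_mul, mul_neg, neg_inj] at h
    exact h.symm
  have h1 : star ((a - star a) * q1) = (a - star a) * q1 := by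
    rw [star_mul, star_sub, star_star, D.s1, sub_mul, ha, hs]
    noncomm_ring
  have h2 := Quaternion.star_eq_self.1 h1
  set r := ((a - star a) * q1).re with hr
  have h3 : a - star a = -(r • q1) := by
    have h4 : (a - star a) * (q1 * q1) = (r : Hq) * q1 := by
      rw [← mul_assoc]
      nth_rw 1 [h2]
    rw [D.h11, mul_neg, mul_one, Quaternion.coe_mul_eq_smul] at h4
    rw [← h4, neg_neg]
  have h5 := Quaternion.self_add_star' (a := a)
  rw [coe_eq_smul] at h5
  refine ⟨a.re, -r / 2, ?_⟩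
  have h6 : (2 : ℝ) • a = (2 * a.re) • (1 : Hq) + (-r) • q1 := by
    calc (2 : ℝ) • a = (a + star a) + (a - star a) := by rw [two_smul]; abel
      _ = _ := by rw [h3, h5]; module
  calc a = (1/2 : ℝ) • ((2 : ℝ) • a) := by module
    _ = _ := by rw [h6]; module

theorem phi_of_comm (D : Data φ q1 q2) {a : Hq} (ha : a * q1 = q1 * a) : φ a = star a := by
  obtain ⟨x, y, rfl⟩ := comm_q1 D ha
  simp [D.one, D.phi_q1, D.s1]

theorem comm_of_phi (D : Data φ q1 q2) {a : Hq} (ha : φ a = star a) : a * q1 = q1 * a := by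
  rw [D.eq] at ha
  have h1 : q1 * star a = star a * q1 := by
    have h2 : -(q1 * star a * q1) * q1 = star a * q1 := by rw [ha]
    have h3 : -(q1 * star a * q1) * q1 = q1 * star a := by
      have : -(q1 * star a * q1) * q1 = -(q1 * star a * (q1 * q1)) := by noncomm_ring
      rw [this, D.h11]; noncomm_ring
    rw [← h3, h2]
  have h := congrArg star h1
  rw [star_mul, star_mul, star_star, D.s1, neg_mul, mul_neg, neg_inj] at h
  exact h

theorem q2_comm (D : Data φ q1 q2) {a : Hq} (ha : a * q1 = q1 * a) : q2 * a = star a * q2 := by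
  obtain ⟨x, y, rfl⟩ := comm_q1 D ha
  simp only [star_add, Quaternion.star_smul, star_one, D.s1, mul_add, add_mul, mul_smul_comm,
    smul_mul_assoc, mul_one, one_mul, neg_mul, D.h12]
  simp

/-- the consequences of the pair relations -/
theorem pair' (D : Data φ q1 q2) (A : Matrix (Fin n) (Fin n) Hq) {C : ℝ}
    (hC : ∀ y ∈ sphere φ n 1, ‖form φ A y‖ ≤ C) {l m : Fin n} (hlm : l ≠ m) :
    A l l * q1 = q1 * A l l ∧ A l m * q1 = q1 * A l m ∧ A m m = star (A l l) ∧
      A m l = -star (A l m) := by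
  obtain ⟨e2, f2⟩ := pair D A hC hlm D.phi_q2 D.h22
  obtain ⟨e3, f3⟩ := pair D A hC hlm D.phi_q3 D.h33
  set a := A l l
  set b := A l m
  set c := A m l
  set d := A m m
  have hd : d = -(q2 * a * q2) := by
    have h1 : q2 * (a + q2 * d * q2) * q2 = 0 := by rw [e2]; simp
    have h2 : q2 * (a + q2 * d * q2) * q2 = q2 * a * q2 + (q2 * q2) * d * (q2 * q2) := by
      noncomm_ring
    rw [h2, D.h22] at h1
    have h3 : q2 * a * q2 + d = 0 := by rw [← h1]; noncomm_ring
    exact (eq_neg_of_add_eq_zero_right h3)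
  have ha : a * q1 = q1 * a := by
    have h1 : a = -(q1 * a * q1) := by
      have h2 : a = -(q1 * q2 * d * (q1 * q2)) := eq_neg_of_add_eq_zero_left e3
      rw [hd] at h2
      have h3 : -(q1 * q2 * -(q2 * a * q2) * (q1 * q2)) = q1 * (q2 * q2) * a * q2 * (q1 * q2) := by
        noncomm_ring
      have h4 : q2 * (q1 * q2) = q1 := by
        rw [D.h12, mul_neg, ← mul_assoc, D.h22]; noncomm_ring
      rw [h3, D.h22] at h2
      have h5 : q1 * -1 * a * q2 * (q1 * q2) = -(q1 * a * (q2 * (q1 * q2))) := by noncomm_ring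
      rw [h5, h4] at h2
      exact h2
    have h6 : a * q1 = -(q1 * a * (q1 * q1)) := by
      nth_rw 1 [h1]; noncomm_ring
    rw [h6, D.h11]; noncomm_ring
  have hc : c = q2 * b * q2 := by
    have h1 : q2 * (b * q2 + q2 * c) = 0 := by rw [f2, mul_zero]
    have h2 : q2 * (b * q2 + q2 * c) = q2 * b * q2 + (q2 * q2) * c := by noncomm_ring
    rw [h2, D.h22] at h1
    have h3 : q2 * b * q2 + -1 * c = q2 * b * q2 - c := by noncomm_ring
    rw [h3] at h1
    exact (sub_eq_zero.1 h1).symm
  have hb : b * q1 = q1 * b := by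
    have h1 : b * (q1 * q2) + q1 * q2 * c = (b * q1 - q1 * b) * q2 := by
      rw [hc]
      have h2 : q1 * q2 * (q2 * b * q2) = q1 * (q2 * q2) * b * q2 := by noncomm_ring
      rw [h2, D.h22]; noncomm_ring
    rw [h1] at f3
    have h3 : (b * q1 - q1 * b) * (q2 * q2) = 0 := by rw [← mul_assoc, f3, zero_mul]
    rw [D.h22, mul_neg, mul_one, neg_eq_zero] at h3
    exact sub_eq_zero.1 h3
  refine ⟨ha, hb, ?_, ?_⟩
  · rw [hd, q2_comm D ha, mul_assoc, D.h22]; noncomm_ring
  · rw [hc, q2_comm D hb, mul_assoc, D.h22]; noncomm_ring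

/-! ### Reduction to `α = 1` -/

theorem bdd_one (D : Data φ q1 q2) {α : Hq} (hα : φ α = α) (h0 : α ≠ 0)
    (A : Matrix (Fin n) (Fin n) Hq) :
    Bornology.IsBounded (numRange φ α A) ↔ ∃ C : ℝ, ∀ y ∈ sphere φ n 1, ‖form φ A y‖ ≤ C := by
  obtain ⟨z, hz, hzz⟩ := D.exists_sqrt hα h0
  have hz0 : z ≠ 0 := by
    rintro rfl
    rw [zero_mul] at hzz
    exact h0 hzz.symm
  have hzn : 0 < ‖z‖ := norm_pos_iff.2 hz0
  rw [isBounded_iff_forall_norm_le]
  constructor
  · rintro ⟨C, hC⟩
    refine ⟨C / (‖z‖ * ‖z‖), ?_⟩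
    intro y hy
    rw [mem_sphere] at hy
    have h1 : (fun k => y k * z) ∈ sphere φ n α := by
      rw [mem_sphere, form_smul_right D, hy, hz, mul_one, hzz]
    have h2 := hC _ ⟨_, h1, rfl⟩
    rw [form_smul_right D, hz, norm_mul, norm_mul] at h2
    rw [le_div_iff₀ (by positivity)]
    linarith [mul_comm ‖z‖ ‖form φ A y‖, mul_assoc ‖form φ A y‖ ‖z‖ ‖z‖]
  · rintro ⟨C, hC⟩
    refine ⟨‖z‖ * C * ‖z‖, ?_⟩
    rintro _ ⟨x, hx, rfl⟩
    rw [mem_sphere] at hx
    have hxe : x = fun k => (x k * z⁻¹) * z := by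
      ext1 k
      rw [mul_assoc, inv_mul_cancel₀ hz0, mul_one]
    have h1 : (fun k => x k * z⁻¹) ∈ sphere φ n 1 := by
      rw [mem_sphere]
      have h2 : φ z * form φ 1 (fun k => x k * z⁻¹) * z = α := by
        rw [← form_smul_right D, ← hxe, hx]
      rw [hz] at h2
      have h3 : z * form φ 1 (fun k => x k * z⁻¹) * z = z * 1 * z := by
        rw [h2, mul_one, hzz]
      exact mul_left_cancel₀ hz0 (mul_right_cancel₀ hz0 h3)
    have h4 := hC _ h1
    rw [hxe, form_smul_right D, hz, norm_mul, norm_mul]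
    gcongr

/-! ### The bounded cases -/

theorem key_bound (h11 : q1 * q1 = -1) {u v : Hq} {N : ℝ}
    (h : star u * q1 * u + star v * q1 * v = N • q1) : |‖u‖ ^ 2 - ‖v‖ ^ 2| ≤ |N| := by
  have hn := norm_q1 h11
  have h1 : ‖star u * q1 * u‖ = ‖u‖ ^ 2 := by
    rw [norm_mul, norm_mul, Quaternion.norm_star, hn]; ring
  have h2 : ‖-(star v * q1 * v)‖ = ‖v‖ ^ 2 := by
    rw [norm_neg, norm_mul, norm_mul, Quaternion.norm_star, hn]; ring
  have h3 := abs_norm_sub_norm_le (star u * q1 * u) (-(star v * q1 * v))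
  rw [sub_neg_eq_add, h, norm_smul, hn, mul_one, h1, h2] at h3
  exact h3

theorem key_bound' (h11 : q1 * q1 = -1) {u v : Hq}
    (h : star u * q1 * u + star v * q1 * v = q1) : |2 * (star u * v).re| ≤ 1 := by
  have h1 : star (u + v) * q1 * (u + v) + star (u - v) * q1 * (u - v) = (2 : ℝ) • q1 := by
    have : star (u + v) * q1 * (u + v) + star (u - v) * q1 * (u - v)
        = (2 : ℝ) • (star u * q1 * u + star v * q1 * v) := by
      rw [two_smul, star_add, star_sub]
      noncomm_ring
    rw [this, h]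
  have h2 := key_bound h11 h1
  have h3 : ‖u + v‖ ^ 2 - ‖u - v‖ ^ 2 = 4 * (star u * v).re := by
    rw [sq, sq, ← Quaternion.normSq_eq_norm_mul_self, ← Quaternion.normSq_eq_norm_mul_self]
    simp only [Quaternion.normSq_def']
    simp
    ring
  rw [h3] at h2
  have h4 : |4 * (star u * v).re| = 2 * |2 * (star u * v).re| := by
    rw [show (4 : ℝ) * (star u * v).re = 2 * (2 * (star u * v).re) by ring, abs_mul, abs_two]
  rw [h4, abs_two] at h2
  linarith

theorem bounded_two (D : Data φ q1 q2) {a b : Hq} (ha : φ a = star a) (hb : φ b = star b) :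
    ∃ C : ℝ, ∀ y ∈ sphere φ 2 1, ‖form φ !![a, b; -star b, star a] y‖ ≤ C := by
  obtain ⟨a0, a1, rfl⟩ := comm_q1 D (comm_of_phi D ha)
  obtain ⟨b0, b1, rfl⟩ := comm_q1 D (comm_of_phi D hb)
  refine ⟨|a0| + |a1| + |b0| + |b1|, ?_⟩
  intro y hy
  have hy0 : φ (y 0) * y 0 + φ (y 1) * y 1 = 1 := by
    have : ∑ l, φ (y l) * y l = 1 := hy
    rwa [Fin.sum_univ_two] at this
  set u := y 0
  set v := y 1
  have hc : star u * q1 * u + star v * q1 * v = q1 := by
    rw [D.phi_ne, D.phi_ne, ← mul_add, hy0, mul_one]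
  have hn := norm_q1 D.h11
  have b1' : |‖u‖ ^ 2 - ‖v‖ ^ 2| ≤ 1 := by
    have := key_bound D.h11 (u := u) (v := v) (N := 1) (by rw [hc, one_smul])
    rwa [abs_one] at this
  have b2' : |2 * (star u * v).re| ≤ 1 := key_bound' D.h11 hc
  have b3' : |2 * (star u * (q1 * v)).re| ≤ 1 := by
    apply key_bound' D.h11
    have : star (q1 * v) * q1 * (q1 * v) = -(star v * (q1 * q1) * q1 * v) := by
      rw [star_mul, D.s1]; noncomm_ring
    rw [this, D.h11]
    have : -(star v * -1 * q1 * v) = star v * q1 * v := by noncomm_ring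
    rw [this, hc]
  -- the four pieces
  have hphi : ∀ x : Hq, φ x * q1 = q1 * star x := by
    intro x
    rw [D.eq]
    have : -(q1 * star x * q1) * q1 = -(q1 * star x * (q1 * q1)) := by noncomm_ring
    rw [this, D.h11]; noncomm_ring
  have p1 : φ u * q1 * u - φ v * q1 * v = (‖u‖ ^ 2 - ‖v‖ ^ 2) • q1 := by
    rw [hphi, hphi, mul_assoc, mul_assoc, Quaternion.star_mul_self, Quaternion.star_mul_self,
      Quaternion.normSq_eq_norm_mul_self, Quaternion.normSq_eq_norm_mul_self, coe_eq_smul,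
      coe_eq_smul, mul_smul_comm, mul_smul_comm, mul_one, sq, sq]
    module
  have p2 : φ u * q1 * v + φ v * q1 * u = (2 * (star u * v).re) • q1 := by
    rw [hphi, hphi]
    have h1 := Quaternion.self_add_star' (a := star u * v)
    rw [star_mul, star_star] at h1
    rw [mul_assoc, mul_assoc, ← mul_add, h1, coe_eq_smul, mul_smul_comm, mul_one]
  have p3 : φ u * v - φ v * u = -((2 * (star u * (q1 * v)).re) • q1) := by
    have h1 := Quaternion.self_add_star' (a := star u * (q1 * v))
    rw [star_mul, star_mul, star_star, D.s1] at h1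
    have h2 : φ u * v - φ v * u = -(q1 * (star u * (q1 * v) + star v * -q1 * u)) := by
      rw [D.eq, D.eq]; noncomm_ring
    rw [h2, h1, coe_eq_smul, mul_smul_comm, mul_one]
  have hform : form φ !![a0 • (1 : Hq) + a1 • q1, b0 • (1 : Hq) + b1 • q1;
      -star (b0 • (1 : Hq) + b1 • q1), star (a0 • (1 : Hq) + a1 • q1)] y
      = a0 • (φ u * u + φ v * v) + a1 • (φ u * q1 * u - φ v * q1 * v)
        + b0 • (φ u * v - φ v * u) + b1 • (φ u * q1 * v + φ v * q1 * u) := by
    unfold form
    rw [Fin.sum_univ_two, Fin.sum_univ_two, Fin.sum_univ_two]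
    simp only [Matrix.of_apply, Matrix.cons_val', Matrix.cons_val_zero, Matrix.cons_val_one,
      Matrix.cons_val_fin_one, star_add, Quaternion.star_smul, star_one, D.s1]
    change φ u * (a0 • (1 : Hq) + a1 • q1) * u + φ u * (b0 • (1 : Hq) + b1 • q1) * v +
      (φ v * -(b0 • (1 : Hq) + b1 • -q1) * u + φ v * (a0 • (1 : Hq) + a1 • -q1) * v) = _
    simp only [mul_add, add_mul, mul_smul_comm, smul_mul_assoc, mul_one, mul_neg, neg_mul,
      smul_neg, neg_add, neg_neg]
    module
  rw [hform, hy0, p1, p2, p3]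
  refine (norm_add_le _ _).trans (add_le_add ((norm_add_le _ _).trans (add_le_add
    ((norm_add_le _ _).trans (add_le_add ?_ ?_)) ?_)) ?_)
  · rw [norm_smul, norm_one, mul_one, Real.norm_eq_abs]
  · rw [norm_smul, norm_smul, hn, mul_one, Real.norm_eq_abs, Real.norm_eq_abs]
    nlinarith [abs_nonneg a1]
  · rw [norm_smul, norm_neg, norm_smul, hn, mul_one, Real.norm_eq_abs, Real.norm_eq_abs]
    nlinarith [abs_nonneg b0]
  · rw [norm_smul, norm_smul, hn, mul_one, Real.norm_eq_abs, Real.norm_eq_abs]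
    nlinarith [abs_nonneg b1]

/-- **Full answer to Q1.** Let `φ` be a nonstandard involution of `ℍ`, `α ∈ Inv(φ)`, `α ≠ 0`
and `A ∈ ℍ^{n×n}`, `n ≥ 1`.
* If `n = 1`, then `W_φ^(α)(A)` is always bounded.
* If `n = 2`, then `W_φ^(α)(A)` is bounded if and only if `A = [[a, b], [-b*, a*]]` with
  `φ(a) = a*` and `φ(b) = b*`.
* If `n ≥ 3`, then `W_φ^(α)(A)` is bounded if and only if `A` is a real scalar matrix. -/
theorem result (φ : Hq →ₗ[ℝ] Hq) (hφ : IsNonstdInvolution φ) (α : Hq) (hα : φ α = α)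
    (h0 : α ≠ 0) :
    (∀ A : Matrix (Fin 1) (Fin 1) Hq, Bornology.IsBounded (numRange φ α A)) ∧
    (∀ A : Matrix (Fin 2) (Fin 2) Hq, Bornology.IsBounded (numRange φ α A) ↔
      ∃ a b : Hq, φ a = star a ∧ φ b = star b ∧ A = !![a, b; -star b, star a]) ∧
    (∀ n : ℕ, 3 ≤ n → ∀ A : Matrix (Fin n) (Fin n) Hq, Bornology.IsBounded (numRange φ α A) ↔
      ∃ r : ℝ, A = r • (1 : Matrix (Fin n) (Fin n) Hq)) := by
  obtain ⟨q1, q2, D⟩ := exists_data hφ
  refine ⟨?_, ?_, ?_⟩
  · intro A
    rw [bdd_one D hα h0]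
    refine ⟨‖A 0 0‖, ?_⟩
    intro y hy
    have h1 : ∑ l, φ (y l) * y l = 1 := hy
    rw [Fin.sum_univ_one] at h1
    have h2 : ‖y 0‖ * ‖y 0‖ = 1 := by
      have h3 := congrArg norm h1
      rwa [norm_mul, D.norm_phi, norm_one] at h3
    unfold form
    rw [Fin.sum_univ_one, Fin.sum_univ_one, norm_mul, norm_mul, D.norm_phi]
    have : ‖y 0‖ * ‖A 0 0‖ * ‖y 0‖ = (‖y 0‖ * ‖y 0‖) * ‖A 0 0‖ := by ring
    rw [this, h2, one_mul]
  · intro A
    rw [bdd_one D hα h0]
    constructor
    · rintro ⟨C, hC⟩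
      obtain ⟨h1, h2, h3, h4⟩ := pair' D A hC (l := 0) (m := 1) (by decide)
      refine ⟨A 0 0, A 0 1, phi_of_comm D h1, phi_of_comm D h2, ?_⟩
      ext1 i j
      fin_cases i <;> fin_cases j
      · rfl
      · rfl
      · exact h4
      · exact h3
    · rintro ⟨a, b, ha, hb, rfl⟩
      exact bounded_two D ha hb
  · intro n hn A
    rw [bdd_one D hα h0]
    constructor
    · rintro ⟨C, hC⟩
      have hthird : ∀ l m : Fin n, ∃ r : Fin n, l ≠ r ∧ m ≠ r := by
        intro l m
        by_contra hcon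
        push Not at hcon
        have h1 : (Finset.univ : Finset (Fin n)) ⊆ {l, m} := by
          intro r _
          by_cases hr : l = r
          · simp [hr]
          · have := hcon r hr
            simp [this]
        have h2 := Finset.card_le_card h1
        rw [Finset.card_univ, Fintype.card_fin] at h2
        have h3 : Finset.card {l, m} ≤ 2 := Finset.card_le_two
        omega
      have hoff : ∀ l m : Fin n, l ≠ m → A l m = 0 := by
        intro l m hlm
        obtain ⟨r, hr1, hr2⟩ := hthird l m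
        have h1 := triple D A hC (l := l) (m := r) (r := m) hr1 hlm hr2.symm
          (z := 1) (by rw [D.one, mul_one])
        have h2 := triple D A hC (l := l) (m := r) (r := m) hr1 hlm hr2.symm
          (z := q1) (by rw [D.phi_q1, neg_mul, D.h11, neg_neg])
        obtain ⟨-, h3, -, -⟩ := pair' D A hC hlm
        rw [mul_one, D.one, one_mul] at h1
        have h4 : A m l = -A l m := eq_neg_of_add_eq_zero_right h1
        rw [h4, D.phi_q1, neg_mul_neg, ← h3, ← two_smul ℝ] at h2
        rcases smul_eq_zero.1 h2 with h | h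
        · norm_num at h
        · rcases mul_eq_zero.1 h with h | h
          · exact h
          · rw [h] at D
            have := D.h11
            rw [zero_mul] at this
            have := congrArg (fun z : Hq => z.re) this
            simp at this
      have h0n : 0 < n := by omega
      let z0 : Fin n := ⟨0, h0n⟩
      have hstar : ∀ l m : Fin n, l ≠ m → A m m = star (A l l) := fun l m hlm =>
        (pair' D A hC hlm).2.2.1
      have hreal : star (A z0 z0) = A z0 z0 := by
        obtain ⟨r, hr, -⟩ := hthird z0 z0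
        obtain ⟨s, hs1, hs2⟩ := hthird z0 r
        have e1 := hstar z0 r hr
        have e2 := hstar r s hs2
        have e3 := hstar z0 s hs1
        rw [← e3, e2, e1, star_star]
      have hdiag : ∀ l : Fin n, A l l = A z0 z0 := by
        intro l
        by_cases hl : z0 = l
        · rw [hl]
        · rw [hstar z0 l hl, hreal]
      refine ⟨(A z0 z0).re, ?_⟩
      ext1 i j
      rw [Matrix.smul_apply]
      by_cases hij : i = j
      · rw [hij, Matrix.one_apply_eq, hdiag j, ← coe_eq_smul]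
        exact Quaternion.star_eq_self.1 hreal
      · rw [Matrix.one_apply_ne hij, smul_zero]
        exact hoff i j hij
    · rintro ⟨r, rfl⟩
      refine ⟨|r|, ?_⟩
      intro y hy
      have h1 : form φ (r • (1 : Matrix (Fin n) (Fin n) Hq)) y = r • form φ 1 y := by
        unfold form
        simp only [Matrix.smul_apply, mul_smul_comm, smul_mul_assoc, Finset.smul_sum]
      rw [h1, (mem_sphere _ _).1 hy, norm_smul, norm_one, mul_one, Real.norm_eq_abs]

end Pool.Agent.Results.MP_dceaed_al.BoundedPhiRange
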